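import Pool.Agent.W937.FG.Stm

/-!
# Project FG (MP_9d0328_lc): the main program, completeness
-/

set_option autoImplicit false

namespace Pool.Agent.W839.FG

open Function
open Pool.Agent.W937.FG

theorem upd_N (n t x : ℕ) (a r : ℕ → ℕ) : update (st n t a r) Reg.N x = st x t a r := by
  funext i
  cases i <;> simp [st, update]

theorem upd_A (n t x : ℕ) (a r : ℕ → ℕ) (j : ℕ) :
    update (st n t a r) (Reg.A j) x = st n t (update a j x) r := by
  funext i
  cases i with
  | A l =>
    by_cases h : l = j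
    · subst h
      simp [st]
    · rw [update_of_ne (by simpa using h)]
      simp [st, update_of_ne h]
  | _ => simp [st, update]

theorem upd_M (n t x : ℕ) (a r : ℕ → ℕ) (j : ℕ) :
    update (st n t a r) (Reg.M j) x = st n t a (update r j x) := by
  funext i
  cases i with
  | M l =>
    by_cases h : l = j
    · subst h
      simp [st]
    · rw [update_of_ne (by simpa using h)]
      simp [st, update_of_ne h]
  | _ => simp [st, update]

theorem st_zero : st 0 0 (fun _ => 0) (fun _ => 0) = fun _ => 0 := by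
  funext i
  cases i <;> rfl

theorem seq' {T K : Type} [DecidableEq K] {e : Bool} {p q : Prog T K} {s t u : K → ℕ}
    {w x y : List T} (h1 : Exec e p s w t) (h2 : Exec e q t x u) (hy : y = w ++ x) :
    Exec e (.seq p q) s y u := hy ▸ Exec.seq h1 h2

theorem exec_inc {T : Type} {i : Reg} {s s' : Reg → ℕ} (h : s' = update s i (s i + 1)) :
    Exec true (incP T i) s ([] : List T) s' := Exec.op ⟨rfl, h⟩

theorem exec_dec {T : Type} {i : Reg} {s s' : Reg → ℕ} (h0 : 0 < s i)
    (h : s' = update s i (s i - 1)) :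
    Exec true (decP T i) s ([] : List T) s' := Exec.op ⟨rfl, Or.inl ⟨h0, h⟩⟩

theorem exec_zeroA {T : Type} (j : ℕ) (s : Reg → ℕ) (h : ∀ i < j, s (Reg.A i) = 0) :
    Exec true (zeroA T j) s ([] : List T) s := by
  induction j with
  | zero => exact Exec.op ⟨rfl, rfl⟩
  | succ j ih =>
    exact seq' (ih fun i hi => h i (by omega)) (Exec.op ⟨rfl, h j (by omega), rfl⟩) rfl

theorem star_out {T : Type} (c : T) (m n t : ℕ) (a r : ℕ → ℕ) :
    Exec true (.star (.seq (.op (.out c)) (decP T .N))) (st (n + m) t a r)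
      (List.replicate m c) (st n t a r) := by
  induction m with
  | zero => exact Exec.star_nil
  | succ m ih =>
    have h1 : Exec true (.seq (.op (.out c)) (decP T .N)) (st (n + (m + 1)) t a r) [c]
        (st (n + m) t a r) :=
      seq' (t := st (n + (m + 1)) t a r) (Exec.op ⟨rfl, rfl⟩)
        (exec_dec (by simp [st]) (by rw [upd_N]; simp [st])) rfl
    exact Exec.star_cons h1 ih

theorem star_in (m n : ℕ) (a : ℕ → ℕ) :
    Exec true (.star (.seq (.op (.out 0)) (.seq (incP (Fin 3) .N) (incP (Fin 3) (.M 0)))))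
      (st n 0 a (update (fun _ => 0) 0 n))
      (List.replicate m 0) (st (n + m) 0 a (update (fun _ => 0) 0 (n + m))) := by
  induction m generalizing n with
  | zero => exact Exec.star_nil
  | succ m ih =>
    have h1 : Exec true (.seq (.op (.out 0)) (.seq (incP (Fin 3) .N) (incP (Fin 3) (.M 0))))
        (st n 0 a (update (fun _ => 0) 0 n)) [0]
        (st (n + 1) 0 a (update (fun _ => 0) 0 (n + 1))) := by
      refine seq' (t := st n 0 a (update (fun _ => 0) 0 n)) (Exec.op ⟨rfl, rfl⟩)
        (seq' (t := st (n + 1) 0 a (update (fun _ => 0) 0 n)) (exec_inc ?_) (exec_inc ?_) rfl) rfl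
      · rw [upd_N]
        rfl
      · rw [upd_M]
        simp [st]
    have h2 := Exec.star_cons h1 (ih (n + 1))
    have h3 : n + 1 + m = n + (m + 1) := by omega
    rw [h3] at h2
    exact h2

theorem main (hE : PropE2) (h1 : PropAC1) (h2 : PropAC2) : PropTOPC := by
  intro f b M k hM m hb hf
  set x := F k (m + 1) with hx
  have hst : (fun _ => 0 : Reg → ℕ) = st 0 0 (fun _ => 0) (update (fun _ => 0) 0 0) := by
    rw [← st_zero]
    simp
  have r1 := star_in m 0 (fun _ => 0)
  rw [zero_add, ← hst] at r1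
  have r2 : Exec true (incP (Fin 3) .N) (st m 0 (fun _ => 0) (update (fun _ => 0) 0 m)) []
      (st (m + 1) 0 (fun _ => 0) (update (fun _ => 0) 0 m)) := exec_inc (by rw [upd_N]; rfl)
  have r3 : Exec true (incP (Fin 3) (.A k)) (st (m + 1) 0 (fun _ => 0) (update (fun _ => 0) 0 m)) []
      (st (m + 1) 0 (update (fun _ => 0) k 1) (update (fun _ => 0) 0 m)) :=
    exec_inc (by rw [upd_A]; rfl)
  have r4 := h1 (Fin 3) k (m + 1) (update (fun _ => 0) 0 m)
  have r5 : Exec true (zeroA (Fin 3) (k + 1)) (st x 0 (fun _ => 0) (update (fun _ => 0) 0 m)) []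
      (st x 0 (fun _ => 0) (update (fun _ => 0) 0 m)) := exec_zeroA _ _ fun _ _ => rfl
  have r6 := hE (Fin 3) M x (x + m) 0 (fun _ => 0) (update (fun _ => 0) 0 m) (fun _ => 0)
    (hM m x hf hb)
  have r7 := star_out (1 : Fin 3) m x 0 (fun _ => 0) (fun _ => 0)
  have r8 := h2 (Fin 3) k (m + 1) (fun _ => 0)
  have r9 : Exec true (decP (Fin 3) (.A k)) (st (m + 1) 0 (update (fun _ => 0) k 1) (fun _ => 0)) []
      (st (m + 1) 0 (fun _ => 0) (fun _ => 0)) :=
    exec_dec (by simp [st]) (by
      rw [upd_A]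
      congr 1
      funext i
      by_cases hi : i = k
      · subst hi
        simp [st]
      · simp [hi])
  have r10 : Exec true (zeroA (Fin 3) (k + 1)) (st (m + 1) 0 (fun _ => 0) (fun _ => 0)) []
      (st (m + 1) 0 (fun _ => 0) (fun _ => 0)) := exec_zeroA _ _ fun _ _ => rfl
  have r11 := star_out (2 : Fin 3) m 1 0 (fun _ => 0) (fun _ => 0)
  rw [add_comm 1 m] at r11
  have r12 : Exec true (decP (Fin 3) .N) (st 1 0 (fun _ => 0) (fun _ => 0)) []
      (fun _ => 0) := exec_dec (by simp [st]) (by rw [upd_N, ← st_zero]; rfl)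
  unfold top
  refine seq' r1 (seq' r2 (seq' r3 (seq' r4 (seq' r5 (seq' r6 (seq' r7 (seq' r8 (seq' r9
    (seq' r10 (seq' r11 r12 rfl) rfl) rfl) rfl) rfl) rfl) rfl) rfl) rfl) rfl) ?_
  simp [abc, List.append_assoc]

end Pool.Agent.W839.FG
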